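import Mathlib
import Pool.Agent.H48.WittDefs
import Pool.Agent.H48.WittLDefs
import Pool.Agent.H48.WittD

set_option autoImplicit false

namespace Pool.Agent.Results.MP_8879ae_al.NoFactorLaurent

open TensorProduct Pool.Agent.H48.WittDefs Pool.Agent.H48.WittLDefs

/-- The Witt algebra `W = ℂ[t, t⁻¹]∂`, the Lie algebra of derivations of `ℂ[t, t⁻¹]`. -/
abbrev Witt : Type := Derivation ℂ (LaurentPolynomial ℂ) (LaurentPolynomial ℂ)

/-- The vector field `f∂`. -/
noncomputable def vf (f : LaurentPolynomial ℂ) : Witt := f • dt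

/-- The divided derivative `f^{(m)}/m!`. -/
noncomputable def dd (m : ℕ) (f : LaurentPolynomial ℂ) : LaurentPolynomial ℂ :=
  (m.factorial : ℂ)⁻¹ • dt^[m] f

/-- `f(t_i)` as an element of `Ã_ℓ`. -/
noncomputable def at' {ℓ : ℕ} (i : Fin ℓ) (f : LaurentPolynomial ℂ) : WeylL ℓ := mu ℓ (sub i f)

/-- The value `Ψ_𝐧(f∂) = ∑_i (f(t_i)∂_i + ∑_{j<n_i} (f^{(j+1)}/(j+1)!)(t_i) ⊗ v_{i,j})`. -/
noncomputable def psi {ℓ : ℕ} (n : Fin ℓ → ℕ) (f : LaurentPolynomial ℂ) :
    Tn (WeylL ℓ) (U (G n)) :=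
  ∑ i, (tm (at' i f * del i) 1 + ∑ j ∈ Finset.range (n i), tm (at' i (dd (j + 1) f)) (v n i j))

attribute [local instance 100] LieRing.ofAssociativeRing

open Pool.Agent.H48.Witt LaurentPolynomial in
theorem result : ∃ φ : U Witt →ₐ[ℂ] WeylL 2,
    ∀ (ℓ : ℕ) (n : Fin ℓ → ℕ) (φbar : Tn (WeylL ℓ) (U (G n)) →+* WeylL 2),
      ¬ ∀ f : LaurentPolynomial ℂ, φbar (psi n f) = φ (iota (vf f)) := by
  let e₁ : L 2 := tp 0 1
  let e₂ : L 2 := tp 1 1
  let u : L 2 := tp 1 (-1)
  have hu : e₂ * u = 1 := by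
    simp [e₂, u, tp, AddMonoidAlgebra.single_mul_single, ← Pi.single_add, AddMonoidAlgebra.one_def]
  let pA : LaurentPolynomial ℂ →ₗ[ℂ] L 2 := Finsupp.linearCombination ℂ (zsum e₁ e₂ u) ∘ₗ
    (AddMonoidAlgebra.coeffLinearEquiv ℂ).toLinearMap
  have hpA : ∀ k, pA (T k) = zsum e₁ e₂ u k := fun k => by
    change pA (AddMonoidAlgebra.single k 1) = _
    simp [pA, -single_eq_C_mul_T]
  have h11 : pd 0 e₁ = 1 := by simp [e₁, pd_tp]
  have h12 : pd 0 e₂ = 0 := by simp [e₂, pd_tp]
  have h21 : pd 1 e₁ = 0 := by simp [e₁, pd_tp]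
  have h22 : pd 1 e₂ = 1 := by simp [e₂, pd_tp]
  have hT : ∀ m : ℤ, (T 1 * T m : LaurentPolynomial ℂ) = T (m + 1) := fun m => by
    rw [← T_add, add_comm]
  have key : ∀ f g, Phi (T 1) pA e₁ (pd 0) (pd 1) f (pA g) = pA (f * dt g) := by
    intro f g
    induction f using LaurentPolynomial.induction_on' with
    | add a b ha hb =>
      rw [add_mul, map_add, ← ha, ← hb]
      simp only [Phi_apply, mul_add, map_add]
      ring
    | C_mul_T m a =>
      induction g using LaurentPolynomial.induction_on' with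
      | add a b ha hb => simp only [map_add, mul_add, ha, hb]
      | C_mul_T k b =>
        have := der_zsum e₁ e₂ u hu m (Phi (T 1) pA e₁ (pd 0) (pd 1) (T m))
          (by rw [Phi_apply, h11, h21, hpA, mul_one, mul_zero, add_zero])
          (by rw [Phi_apply, h12, h22, hT, hpA, hpA, mul_one, mul_zero, zero_add]) k
        rw [Phi_apply] at this ⊢
        rw [mul_left_comm (T 1)]
        simp only [← smul_eq_C_mul, map_smul, Derivation.map_smul, dt_T, mul_smul_comm,
          smul_mul_assoc, ← T_add]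
        simp only [hpA, Algebra.smul_def, map_intCast, ← T_add] at this ⊢
        linear_combination (algebraMap ℂ _ a * algebraMap ℂ _ b) * this
  let op : LaurentPolynomial ℂ → WeylL 2 := fun f =>
    mu 2 (pA f) * del 0 + mu 2 (e₁ * pA f - pA (T 1 * f)) * del 1
  have hop : ∀ f x, (op f).1 x = Phi (T 1) pA e₁ (pd 0) (pd 1) f x := fun _ _ => rfl
  have hdt : dt (T 1) = 1 := by simp [dt_T]
  let F : Witt →ₗ⁅ℂ⁆ WeylL 2 :=
    { toFun := fun d => op (d (T 1))
      map_add' := fun a b => Subtype.ext (LinearMap.ext fun x => by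
        change (op (a (T 1) + b (T 1))).1 x = (op (a (T 1))).1 x + (op (b (T 1))).1 x
        simp only [hop, Phi_apply, mul_add, map_add]
        ring)
      map_smul' := fun c a => Subtype.ext (LinearMap.ext fun x => by
        change (op (c • a (T 1))).1 x = c • (op (a (T 1))).1 x
        simp only [hop, Phi_apply, mul_smul_comm, map_smul]
        simp only [Algebra.smul_def]
        ring)
      map_lie' := fun {a b} => Subtype.ext (LinearMap.ext fun x => by
        change (op (⁅a, b⁆ (T 1))).1 x =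
          (op (a (T 1))).1 ((op (b (T 1))).1 x) - (op (b (T 1))).1 ((op (a (T 1))).1 x)
        simp only [hop]
        rw [Phi_lie (T 1) dt hdt der_laurent pA e₁ e₂ _ _ h11 h12 h21 h22
          (fun a b h1 h2 => ext_of_agree (top_two _ h1 h2)) key]
        rfl) }
  refine ⟨UniversalEnvelopingAlgebra.lift ℂ F, fun ℓ n φbar h => ?_⟩
  obtain ⟨ψ, D, N, w, a1, a2, a3, a4⟩ := data_of_factor (mu ℓ) (fun i => tp i 1) del
    (fun i j => Subtype.ext (LinearMap.ext fun x => by
      change pd i (tp j 1 * x) - tp j 1 * pd i x = _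
      rw [Derivation.leibniz, pd_tp]
      split_ifs with e <;> simp <;> rfl))
    n (v n) φbar (fun k => op (T k)) (fun k => by
      have := h (T k)
      replace this := this.trans (UniversalEnvelopingAlgebra.lift_ι_apply ℂ F _)
      have e : F (vf (T k)) = op (T k) := by
        change op (((T k : LaurentPolynomial ℂ) • dt) (T 1)) = _
        rw [Derivation.smul_apply, hdt, smul_eq_mul, mul_one]
      rw [← e, ← this, psi, ← Polynomial.toLaurent_X_pow]
      simp only [at', dd, sub_hasse, sub_toLaurent, Polynomial.aeval_X_pow]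
      rfl)
  have h2 : psum e₁ e₂ 0 ≠ 0 := fun e => by
    have : algebraMap ℂ (L 2) 2 = algebraMap ℂ (L 2) 0 := by rw [map_ofNat, map_zero]; exact e
    exact two_ne_zero ((algebraMap ℂ (L 2)).injective this)
  refine nofactor _ ?_ (mu 2).toRingHom (fun _ _ => rfl) e₁ e₂
    (fun S h1 h2 => mul_of_commS S (top_two _ h1 h2)) no_root (psum e₁ e₂) h2
    (fun _ => rfl) _ _ h11 h12 h21 h22 (fun k => op (T k))
    (fun k x => by
      rw [hop, Phi_apply, hT, hpA, hpA, zsum_nat, ← zsum_nat e₁ e₂ u (k + 1)]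
      rfl)
    ψ (fun i => tp i 1) D N w a1 a2 a3 a4
  rintro _ ((⟨i, rfl⟩ | ⟨i, rfl⟩) | ⟨i, rfl⟩)
  · exact Or.inl ⟨_, rfl⟩
  · exact Or.inl ⟨_, rfl⟩
  · exact Or.inr ⟨_, rfl⟩

end Pool.Agent.Results.MP_8879ae_al.NoFactorLaurent
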