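import Mathlib
import Pool.Agent.H48.WittDefs
import Pool.Agent.H48.WittC

set_option autoImplicit false

namespace Pool.Agent.Results.MP_8879ae_al.NoFactorPoly

open Polynomial TensorProduct Pool.Agent.H48.WittDefs

/-- The Weyl algebra `A_k`, generated by `t_i` and `∂_i` acting on `ℂ[t_1, …, t_k]`. -/
noncomputable def WeylS (k : ℕ) : Subalgebra ℂ (Module.End ℂ (MvPolynomial (Fin k) ℂ)) :=
  Algebra.adjoin ℂ
    (Set.range (fun i => LinearMap.mulLeft ℂ (MvPolynomial.X i : MvPolynomial (Fin k) ℂ)) ∪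
      Set.range fun i => (MvPolynomial.pderiv i).toLinearMap)

/-- `A_k` as a type. -/
def Weyl (k : ℕ) : Type := WeylS k

noncomputable instance (k : ℕ) : Ring (Weyl k) := (inferInstance : Ring (WeylS k))

noncomputable instance (k : ℕ) : Algebra ℂ (Weyl k) := (inferInstance : Algebra ℂ (WeylS k))

/-- The generator `t_i`. -/
noncomputable def t {k : ℕ} (i : Fin k) : Weyl k :=
  (⟨LinearMap.mulLeft ℂ (MvPolynomial.X i), Algebra.subset_adjoin (Or.inl ⟨i, rfl⟩)⟩ : WeylS k)

/-- The generator `∂_i`. -/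
noncomputable def del {k : ℕ} (i : Fin k) : Weyl k :=
  (⟨(MvPolynomial.pderiv i).toLinearMap, Algebra.subset_adjoin (Or.inr ⟨i, rfl⟩)⟩ : WeylS k)

/-- The value `Ψ_𝐧(f∂) = ∑_i (f(t_i)∂_i + ∑_{j<n_i} (f^{(j+1)}/(j+1)!)(t_i) ⊗ v_{i,j})`. -/
noncomputable def psi {ℓ : ℕ} (n : Fin ℓ → ℕ) (f : ℂ[X]) : Tn (Weyl ℓ) (U (G n)) :=
  ∑ i, (tm (aeval (t i) f * del i) 1 +
    ∑ j ∈ Finset.range (n i), tm (aeval (t i) (hasseDeriv (j + 1) f)) (v n i j))

/-- Multiplication operators. -/
noncomputable def mu (k : ℕ) : MvPolynomial (Fin k) ℂ →ₐ[ℂ] Weyl k :=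
  (Algebra.lmul ℂ _).codRestrict (WeylS k) fun p => by
    induction p using MvPolynomial.induction_on with
    | C c =>
      rw [← MvPolynomial.algebraMap_eq, AlgHom.commutes]
      exact Subalgebra.algebraMap_mem _ c
    | add p q hp hq => rw [map_add]; exact add_mem hp hq
    | mul_X p i hp => rw [map_mul]; exact mul_mem hp (t i).2

attribute [local instance 100] LieRing.ofAssociativeRing

open Pool.Agent.H48.Witt in
theorem result : ∃ φ : U Wm →ₐ[ℂ] Weyl 2,
    ∀ (ℓ : ℕ) (n : Fin ℓ → ℕ) (φbar : Tn (Weyl ℓ) (U (G n)) →+* Weyl 2),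
      ¬ ∀ f : ℂ[X], φbar (psi n f) = φ (iota (mkDerivation ℂ f)) := by
  let e₁ : MvPolynomial (Fin 2) ℂ := MvPolynomial.X 0
  let e₂ : MvPolynomial (Fin 2) ℂ := MvPolynomial.X 1
  let pA : ℂ[X] →ₗ[ℂ] MvPolynomial (Fin 2) ℂ := (basisMonomials ℂ).constr ℂ (psum e₁ e₂)
  have hpA : ∀ k, pA (X ^ k) = psum e₁ e₂ k := fun k => by
    rw [← monomial_one_right_eq_X_pow]
    simpa using (basisMonomials ℂ).constr_basis ℂ (psum e₁ e₂) k
  have h11 : MvPolynomial.pderiv 0 e₁ = 1 := by simp [e₁]
  have h12 : MvPolynomial.pderiv 0 e₂ = 0 := by simp [e₂]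
  have h21 : MvPolynomial.pderiv 1 e₁ = 0 := by simp [e₁]
  have h22 : MvPolynomial.pderiv 1 e₂ = 1 := by simp [e₂]
  have key : ∀ f g, Phi X pA e₁ (MvPolynomial.pderiv 0) (MvPolynomial.pderiv 1) f (pA g) =
      pA (f * derivative' g) := by
    intro f g
    induction f using Polynomial.induction_on' with
    | add a b ha hb =>
      rw [add_mul, map_add, ← ha, ← hb]
      simp only [Phi_apply, mul_add, map_add]
      ring
    | monomial m a =>
      induction g using Polynomial.induction_on' with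
      | add a b ha hb => simp only [map_add, mul_add, ha, hb]
      | monomial k b =>
        have := der_pow e₁ e₂ (psum e₁ e₂) (fun k => psum e₁ e₂ (m + k)) rfl rfl (fun _ => rfl)
          (fun _ => rfl) (Phi X pA e₁ (MvPolynomial.pderiv 0) (MvPolynomial.pderiv 1) (X ^ m))
          (by simp [Phi_apply, h11, h21, hpA]) (by simp [Phi_apply, h12, h22, ← pow_succ', hpA]) k
        rw [Phi_apply] at this ⊢
        have e : (C a * X ^ m : ℂ[X]) * derivative' (C b * X ^ k : ℂ[X]) =
            (a * b * k) • X ^ (m + (k - 1)) := by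
          change _ * derivative _ = _
          rw [derivative_C_mul_X_pow, smul_eq_C_mul, pow_add]
          simp only [C_mul]
          ring
        rw [← C_mul_X_pow_eq_monomial, ← C_mul_X_pow_eq_monomial, e, mul_left_comm X]
        simp only [← smul_eq_C_mul, map_smul, Derivation.map_smul]
        simp only [hpA, Algebra.smul_def, map_mul, map_natCast] at this ⊢
        linear_combination (algebraMap ℂ _ a * algebraMap ℂ _ b) * this
  let op : ℂ[X] → Weyl 2 := fun f => mu 2 (pA f) * del 0 + mu 2 (e₁ * pA f - pA (X * f)) * del 1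
  have hop : ∀ f x, (op f).1 x =
      Phi X pA e₁ (MvPolynomial.pderiv 0) (MvPolynomial.pderiv 1) f x := fun _ _ => rfl
  let F : Wm →ₗ⁅ℂ⁆ Weyl 2 :=
    { toFun := fun d => op (d X)
      map_add' := fun a b => Subtype.ext (LinearMap.ext fun x => by
        change (op (a X + b X)).1 x = (op (a X)).1 x + (op (b X)).1 x
        simp only [hop, Phi_apply, mul_add, map_add]
        ring)
      map_smul' := fun c a => Subtype.ext (LinearMap.ext fun x => by
        change (op (c • a X)).1 x = c • (op (a X)).1 x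
        simp only [hop, Phi_apply, mul_smul_comm, map_smul]
        simp only [Algebra.smul_def]
        ring)
      map_lie' := fun {a b} => Subtype.ext (LinearMap.ext fun x => by
        change (op (⁅a, b⁆ X)).1 x =
          (op (a X)).1 ((op (b X)).1 x) - (op (b X)).1 ((op (a X)).1 x)
        simp only [hop]
        rw [Phi_lie X derivative' derivative_X (fun d f => (der_eq d f).trans (mul_comm _ _)) pA
          e₁ e₂ _ _ h11 h12 h21 h22 (fun a b h1 h2 => MvPolynomial.derivation_ext
            (Fin.forall_fin_two.2 ⟨h1, h2⟩)) key]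
        rfl) }
  refine ⟨UniversalEnvelopingAlgebra.lift ℂ F, fun ℓ n φbar h => ?_⟩
  obtain ⟨ψ, D, N, w, a1, a2, a3, a4⟩ := data_of_factor (mu ℓ) MvPolynomial.X del
    (fun i j => Subtype.ext (LinearMap.ext fun x => by
      change MvPolynomial.pderiv i (MvPolynomial.X j * x) -
        MvPolynomial.X j * MvPolynomial.pderiv i x = _
      split_ifs with e
      · subst e; simp; rfl
      · simp [MvPolynomial.pderiv_X_of_ne (Ne.symm e)]; rfl))
    n (v n) φbar (fun k => op (X ^ k)) (fun k => by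
      have := h (X ^ k)
      replace this := this.trans (UniversalEnvelopingAlgebra.lift_ι_apply ℂ F _)
      change _ = op (mkDerivation ℂ (X ^ k : ℂ[X]) X) at this
      rw [mkDerivation_X] at this
      rw [← this, psi]
      have e : ∀ i : Fin ℓ, t i = mu ℓ (MvPolynomial.X i) := fun _ => rfl
      simp only [e, aeval_algHom_apply, aeval_X, map_pow]
      rfl)
  refine nofactor _ ?_ (mu 2).toRingHom (fun _ _ => rfl) e₁ e₂ (fun T h1 h2 x => ?_)
    (fun b hb => ?_) (psum e₁ e₂) two_ne_zero (fun _ => rfl) _ _ h11 h12 h21 h22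
    (fun k => op (X ^ k)) (fun k x => by rw [hop, Phi_apply, ← pow_succ', hpA, hpA])
    ψ MvPolynomial.X D N w a1 a2 a3 a4
  · rintro _ (⟨i, rfl⟩ | ⟨i, rfl⟩)
    · exact Or.inl ⟨_, rfl⟩
    · exact Or.inr ⟨_, rfl⟩
  · induction x using MvPolynomial.induction_on with
    | C c => rw [← mul_one (MvPolynomial.C c), ← MvPolynomial.smul_eq_C_mul, map_smul,
        mul_smul_comm, mul_one]
    | add p q hp hq => rw [map_add, hp, hq, mul_add]
    | mul_X p i hp =>
      have : ∀ i : Fin 2, ∀ x, T (MvPolynomial.X i * x) = MvPolynomial.X i * T x :=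
        Fin.forall_fin_two.2 ⟨h1, h2⟩
      rw [mul_comm p, this, hp, mul_left_comm]
  · have := congrArg (MvPolynomial.aeval ![(0 : ℂ[X]), X]) hb
    simp only [e₁, e₂, map_add, map_sub, map_pow, map_mul, MvPolynomial.aeval_X,
      Matrix.cons_val_zero, Matrix.cons_val_one, zero_mul, sub_zero, map_zero] at this
    have := congrArg natDegree (eq_neg_of_add_eq_zero_left this)
    rw [natDegree_pow, natDegree_neg, natDegree_X] at this
    omega

end Pool.Agent.Results.MP_8879ae_al.NoFactorPoly
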